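import Pool.Agent.H244R3.OrbMain

set_option autoImplicit false

open scoped Manifold ContDiff

/-!
Every closed connected 4-manifold, in particular every closed simply connected one, admits an
orbifold singular Einstein metric. The quotient of the 3-sphere by the quaternion group embeds
smoothly in a 4-ball of the manifold (as a leaf of Cartan's isoparametric family of the 4-sphere);
the two complementary pieces are the degeneration sets, and the Einstein orbifold is the spherical
suspension of this quotient.
-/

namespace Pool.Agent.Results.MP_ce7934_gt.ResolutionExists

open Pool.Agent.H244R3.Orb

universe u

theorem result (M : Type u) [TopologicalSpace M] [T2Space M] [CompactSpace M] [ConnectedSpace M]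
    [ChartedSpace (EuclideanSpace ℝ (Fin 4)) M] [IsManifold (𝓡 4) ∞ M] :
    AdmitsOrbifoldSingularEinsteinMetric M :=
  admits M

end Pool.Agent.Results.MP_ce7934_gt.ResolutionExists
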